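import Pool.Agent.helper17.HH.SpecB

/-!
# Row BMF of project HH (MP_07c750_an), block B: the regularity of the set of multipliers
-/

set_option autoImplicit false

open scoped Pointwise
open MeasureTheory Set

namespace Pool.Agent.HH

/-- integers near an integer -/
theorem BMF_int (A : Finset ℤ) (k0 : ℤ) (R : ℝ) (hR : 0 ≤ R) (h : ∀ k ∈ A, |(k : ℝ) - k0| ≤ R) : (A.card : ℝ) ≤ 2 * R + 1 := by
  have h1 : A ⊆ Finset.Icc (k0 - ⌊R⌋) (k0 + ⌊R⌋) := by
    intro k hk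
    have h2 := abs_le.1 (h k hk)
    rw [Finset.mem_Icc]
    constructor
    · have h3 : k0 - k ≤ ⌊R⌋ := by
        rw [Int.le_floor]
        push_cast
        linarith [h2.1]
      omega
    · have h3 : k - k0 ≤ ⌊R⌋ := by
        rw [Int.le_floor]
        push_cast
        linarith [h2.2]
      omega
  have h2 := Finset.card_le_card h1
  rw [Int.card_Icc] at h2
  have h3 : 0 ≤ ⌊R⌋ := Int.floor_nonneg.2 hR
  have h4 : (A.card : ℤ) ≤ 2 * ⌊R⌋ + 1 := by omega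
  have h5 : (A.card : ℝ) ≤ 2 * (⌊R⌋ : ℝ) + 1 := by exact_mod_cast h4
  have h6 := Int.floor_le R
  linarith

/-- close multipliers have close indices -/
theorem BMF_key {C1 : ℝ} (hC1 : 1 ≤ C1) (hq : ∀ X X' w w' : ℝ, |X| ≤ 3 → |X'| ≤ 3 → |w| ≤ 1 / 16 → |w'| ≤ 1 / 16 →
      |X - X'| * |w - w'| ≤ C1 * |qq X X' w - qq X X' w'|) (N : ℝ) (hN : 1 ≤ N) (ϑ X X' q0 : ℝ) (hX : |X| ≤ 3) (hX' : |X'| ≤ 3)
    (hϑ : 0 < ϑ) (hXX : ϑ ≤ |X - X'|) (hq0 : 2 / 5 ≤ q0) (hq1 : q0 ≤ 5 / 2) (k k' : ℤ) (w w' : ℝ)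
    (hk : (k : ℝ) / N ≤ w ∧ w ≤ (k + 1) / N ∧ |w| ≤ 1 / 16) (hk' : (k' : ℝ) / N ≤ w' ∧ w' ≤ (k' + 1) / N ∧ |w'| ≤ 1 / 16)
    (t : ℝ) (ht : |qq X X' w / q0 - qq X X' w' / q0| ≤ t) : |(k : ℝ) - k'| ≤ 5 / 2 * C1 * t * N / ϑ + 1 := by
  have hN0 : 0 < N := by linarith
  have hq00 : 0 < q0 := by linarith
  have ht0 : 0 ≤ t := (abs_nonneg _).trans ht
  have e1 : |qq X X' w - qq X X' w'| ≤ 5 / 2 * t := by
    rw [← sub_div, abs_div, abs_of_pos hq00, div_le_iff₀ hq00] at ht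
    have h1 : t * q0 ≤ t * (5 / 2) := mul_le_mul_of_nonneg_left hq1 ht0
    linarith
  have e2 : |w - w'| ≤ C1 * (5 / 2 * t) / ϑ := by
    rw [le_div_iff₀ hϑ]
    have h1 := hq X X' w w' hX hX' hk.2.2 hk'.2.2
    have h2 : ϑ * |w - w'| ≤ |X - X'| * |w - w'| := mul_le_mul_of_nonneg_right hXX (abs_nonneg _)
    have h3 : C1 * |qq X X' w - qq X X' w'| ≤ C1 * (5 / 2 * t) := mul_le_mul_of_nonneg_left e1 (by linarith)
    linarith
  obtain ⟨a1, a2, -⟩ := hk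
  obtain ⟨b1, b2, -⟩ := hk'
  rw [div_le_iff₀ hN0] at a1 b1
  rw [le_div_iff₀ hN0] at a2 b2
  have e3 : |(w - w') * N| ≤ 5 / 2 * C1 * t * N / ϑ := by
    rw [abs_mul, abs_of_pos hN0]
    calc |w - w'| * N ≤ C1 * (5 / 2 * t) / ϑ * N := mul_le_mul_of_nonneg_right e2 hN0.le
      _ = 5 / 2 * C1 * t * N / ϑ := by ring
  have e4 := abs_le.1 e3
  rw [abs_le]
  constructor
  · linarith [e4.1]
  · linarith [e4.2]

theorem BMF_proof (h : RCV_stmt) (h1 : BQW_stmt) : BMF_stmt := by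
  classical
  obtain ⟨C1, hC1, hB⟩ := h1
  have hq : ∀ X X' w w' : ℝ, |X| ≤ 3 → |X'| ≤ 3 → |w| ≤ 1 / 16 → |w'| ≤ 1 / 16 →
      |X - X'| * |w - w'| ≤ C1 * |qq X X' w - qq X X' w'| := fun X X' w w' a b c e => (hB X X' w w' a b c e).1
  refine ⟨8 * C1, by linarith, ?_⟩
  intro N ϑ X X' q0 W w hN hX hX' hϑ hϑ1 hXX hq0 hq1 hW
  have hNr : (1 : ℝ) ≤ (N : ℝ) := by exact_mod_cast hN
  have hN0 : (0 : ℝ) < N := by linarith
  have hkey : ∀ k ∈ W, ∀ k' ∈ W, ∀ t : ℝ, |qq X X' (w k) / q0 - qq X X' (w k') / q0| ≤ t → |(k : ℝ) - k'| ≤ 5 / 2 * C1 * t * N / ϑ + 1 :=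
    fun k hk k' hk' t ht => BMF_key hC1 hq N hNr ϑ X X' q0 hX hX' hϑ hXX hq0 hq1 k k' (w k) (w k') (hW k hk) (hW k' hk') t ht
  have h1ϑ : 1 ≤ C1 / ϑ := by
    rw [one_le_div hϑ]
    linarith
  constructor
  · -- the number of the elements
    have hfib : ∀ a ∈ W.image (fun k => ⌊qq X X' (w k) / q0 / (1 / N)⌋), (W.filter fun k => ⌊qq X X' (w k) / q0 / (1 / N)⌋ = a).card ≤ ⌊8 * C1 / ϑ⌋₊ := by
      intro a ha
      obtain ⟨k0, hk0, rfl⟩ := Finset.mem_image.1 ha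
      refine Nat.le_floor ?_
      have hR : ∀ k ∈ W.filter fun k => ⌊qq X X' (w k) / q0 / (1 / N)⌋ = ⌊qq X X' (w k0) / q0 / (1 / N)⌋, |(k : ℝ) - k0| ≤ 5 / 2 * C1 / ϑ + 1 := by
        intro k hk
        rw [Finset.mem_filter] at hk
        have h2 := Int.abs_sub_lt_one_of_floor_eq_floor hk.2
        have h3 : |qq X X' (w k) / q0 - qq X X' (w k0) / q0| ≤ 1 / N := by
          rw [← sub_div, abs_div, abs_of_pos (show (0 : ℝ) < 1 / N by positivity), div_lt_one (by positivity)] at h2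
          exact h2.le
        have h4 := hkey k hk.1 k0 hk0 (1 / N) h3
        have h5 : 5 / 2 * C1 * (1 / N) * N / ϑ = 5 / 2 * C1 / ϑ := by
          field_simp
        rw [h5] at h4
        exact h4
      have h6 := BMF_int _ k0 (5 / 2 * C1 / ϑ + 1) (by positivity) hR
      refine h6.trans ?_
      have h7 : 8 * C1 / ϑ = 2 * (5 / 2 * C1 / ϑ) + 3 * (C1 / ϑ) := by ring
      rw [h7]
      linarith
    have h8 := Finset.card_le_mul_card_image W _ hfib
    have h9 : cov (1 / N) (W.image fun k => qq X X' (w k) / q0) = (W.image (fun k => ⌊qq X X' (w k) / q0 / (1 / N)⌋)).card := by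
      unfold cov cel
      rw [Finset.image_image]
      rfl
    rw [h9]
    have h10 : (W.card : ℝ) ≤ (⌊8 * C1 / ϑ⌋₊ : ℝ) * ((W.image (fun k => ⌊qq X X' (w k) / q0 / (1 / N)⌋)).card : ℝ) := by exact_mod_cast h8
    refine h10.trans (mul_le_mul_of_nonneg_right (Nat.floor_le (by positivity)) (Nat.cast_nonneg _))
  · -- the local bound
    intro s x0 hs
    have hs0 : 0 < s := lt_of_lt_of_le (by positivity) hs
    have hsN : 1 ≤ s * N := by
      rw [div_le_iff₀ hN0] at hs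
      exact hs
    have hcard : (cov (1 / N) (lc (W.image fun k => qq X X' (w k) / q0) x0 s) : ℝ) ≤ ((W.filter fun k => |qq X X' (w k) / q0 - x0| ≤ s).card : ℝ) := by
      have h2 : lc (W.image fun k => qq X X' (w k) / q0) x0 s ⊆ (W.filter fun k => |qq X X' (w k) / q0 - x0| ≤ s).image (fun k => qq X X' (w k) / q0) := by
        intro y hy
        obtain ⟨hy1, hy2⟩ := Finset.mem_filter.1 hy
        obtain ⟨k, hk, rfl⟩ := Finset.mem_image.1 hy1
        exact Finset.mem_image.2 ⟨k, Finset.mem_filter.2 ⟨hk, hy2⟩, rfl⟩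
      have h3 := (h.ca (1 / N) (lc (W.image fun k => qq X X' (w k) / q0) x0 s)).trans ((Finset.card_le_card h2).trans Finset.card_image_le)
      exact_mod_cast h3
    rcases (W.filter fun k => |qq X X' (w k) / q0 - x0| ≤ s).eq_empty_or_nonempty with he | ⟨k0, hk0⟩
    · refine ⟨0, hcard.trans ?_⟩
      rw [he, Finset.card_empty, Nat.cast_zero]
      exact Nat.cast_nonneg _
    · refine ⟨k0, hcard.trans ?_⟩
      have h4 : (W.filter fun k => |qq X X' (w k) / q0 - x0| ≤ s) ⊆ W.filter fun k : ℤ => |(k : ℝ) - k0| ≤ 8 * C1 * s * N / ϑ := by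
        intro k hk
        rw [Finset.mem_filter] at hk hk0 ⊢
        refine ⟨hk.1, ?_⟩
        have h5 : |qq X X' (w k) / q0 - qq X X' (w k0) / q0| ≤ 2 * s := by
          have h6 := abs_sub_le (qq X X' (w k) / q0) x0 (qq X X' (w k0) / q0)
          have h7 := hk0.2
          rw [abs_sub_comm] at h7
          linarith [hk.2]
        have h6 := hkey k hk.1 k0 hk0.1 (2 * s) h5
        refine h6.trans ?_
        have h7 : 1 ≤ C1 / ϑ * (s * N) := by
          have h8 : 1 * 1 ≤ C1 / ϑ * (s * N) := mul_le_mul h1ϑ hsN zero_le_one (by positivity)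
          linarith
        have h8 : 8 * C1 * s * N / ϑ = 5 / 2 * C1 * (2 * s) * N / ϑ + 3 * (C1 / ϑ * (s * N)) := by ring
        rw [h8]
        linarith
      exact_mod_cast Finset.card_le_card h4

end Pool.Agent.HH
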