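import Pool.Agent.helper17.HH.SpecR

/-!
# Row RKL of project HH (MP_07c750_an), block R: the energy count
-/

set_option autoImplicit false

open scoped Pointwise

namespace Pool.Agent.HH

/-- separated sets in an interval -/
theorem RKL_sep {d : ℝ} (hd : 0 < d) (A : Finset ℝ) (hA : ∀ x ∈ A, ∀ y ∈ A, x ≠ y → d ≤ |x - y|) (y r : ℝ) (hr : 0 ≤ r)
    (h : ∀ x ∈ A, |x - y| < r) : (A.card : ℝ) ≤ 2 * r / d + 1 := by
  have hmaps : ∀ x ∈ A, ⌊(x - (y - r)) / d⌋ ∈ Finset.Icc (0 : ℤ) ⌊2 * r / d⌋ := by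
    intro x hx
    have h1 := abs_lt.1 (h x hx)
    rw [Finset.mem_Icc]
    constructor
    · exact Int.floor_nonneg.2 (div_nonneg (by linarith [h1.1]) hd.le)
    · refine Int.floor_le_floor ?_
      rw [div_le_div_iff_of_pos_right hd]
      linarith [h1.2]
  have hinj : Set.InjOn (fun x : ℝ => ⌊(x - (y - r)) / d⌋) (A : Set ℝ) := by
    intro x hx x' hx' e
    by_contra hne
    have h1 := hA x hx x' hx' hne
    have h2 := Int.abs_sub_lt_one_of_floor_eq_floor e
    have h3 : (x - (y - r)) / d - (x' - (y - r)) / d = (x - x') / d := by ring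
    rw [h3, abs_div, abs_of_pos hd, div_lt_one hd] at h2
    linarith
  have h4 := Finset.card_le_card_of_injOn _ hmaps hinj
  rw [Int.card_Icc] at h4
  have h5 : (0 : ℤ) ≤ ⌊2 * r / d⌋ := Int.floor_nonneg.2 (by positivity)
  have h6 : (((⌊2 * r / d⌋ + 1 - 0).toNat : ℕ) : ℝ) = (⌊2 * r / d⌋ : ℝ) + 1 := by
    have h7 : (((⌊2 * r / d⌋ + 1 - 0).toNat : ℕ) : ℤ) = ⌊2 * r / d⌋ + 1 := by
      rw [sub_zero]
      exact Int.toNat_of_nonneg (by omega)
    have h8 := congrArg (fun k : ℤ => (k : ℝ)) h7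
    push_cast at h8
    exact h8
  have h9 : (A.card : ℝ) ≤ (((⌊2 * r / d⌋ + 1 - 0).toNat : ℕ) : ℝ) := by exact_mod_cast h4
  rw [h6] at h9
  have h10 := Int.floor_le (2 * r / d)
  linarith

/-- Cauchy-Schwarz -/
theorem RKL_cs {α : Type} [DecidableEq α] (P : Finset α) (φ : α → ℤ) (T : ℝ) (hT : ((P.image φ).card : ℝ) ≤ T) :
    (P.card : ℝ) ^ 2 ≤ T * ∑ x ∈ P, ∑ y ∈ P, (if φ x = φ y then (1 : ℝ) else 0) := by
  have e1 : (P.card : ℝ) = ∑ c ∈ P.image φ, ((P.filter fun y => φ y = c).card : ℝ) := by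
    have h1 := Finset.card_eq_sum_card_image φ P
    exact_mod_cast h1
  have e2 : ∑ x ∈ P, ∑ y ∈ P, (if φ x = φ y then (1 : ℝ) else 0) = ∑ c ∈ P.image φ, ((P.filter fun y => φ y = c).card : ℝ) ^ 2 := by
    have h1 : ∀ x ∈ P, ∑ y ∈ P, (if φ x = φ y then (1 : ℝ) else 0) = (fun c : ℤ => ((P.filter fun y => φ y = c).card : ℝ)) (φ x) := by
      intro x _
      change _ = ((P.filter fun y => φ y = φ x).card : ℝ)
      rw [Finset.natCast_card_filter]
      refine Finset.sum_congr rfl fun y _ => ?_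
      by_cases h : φ x = φ y
      · rw [if_pos h, if_pos h.symm]
      · rw [if_neg h, if_neg (fun h' => h h'.symm)]
    rw [Finset.sum_congr rfl h1, Finset.sum_comp (fun c : ℤ => ((P.filter fun y => φ y = c).card : ℝ)) φ]
    refine Finset.sum_congr rfl fun c _ => ?_
    rw [nsmul_eq_mul, pow_two]
  have h2 := sq_sum_le_card_mul_sum_sq (s := P.image φ) (f := fun c => ((P.filter fun y => φ y = c).card : ℝ))
  rw [e1, e2]
  refine h2.trans ?_
  exact mul_le_mul_of_nonneg_right hT (Finset.sum_nonneg fun c _ => by positivity)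

/-- interchange of sums -/
theorem RKL_comm (M S : Finset ℝ) (F : ℝ → ℝ → ℝ → ℝ → ℝ → ℝ) :
    ∑ m ∈ M, ∑ a ∈ S, ∑ b ∈ S, ∑ c ∈ S, ∑ e ∈ S, F m a b c e = ∑ b ∈ S, ∑ e ∈ S, ∑ a ∈ S, ∑ c ∈ S, ∑ m ∈ M, F m a b c e := by
  have h1 : ∀ m ∈ M, ∑ a ∈ S, ∑ b ∈ S, ∑ c ∈ S, ∑ e ∈ S, F m a b c e = ∑ b ∈ S, ∑ e ∈ S, ∑ a ∈ S, ∑ c ∈ S, F m a b c e := by
    intro m _
    rw [Finset.sum_comm]
    refine Finset.sum_congr rfl fun b _ => ?_
    have h2 : ∀ a ∈ S, ∑ c ∈ S, ∑ e ∈ S, F m a b c e = ∑ e ∈ S, ∑ c ∈ S, F m a b c e := fun a _ => Finset.sum_comm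
    rw [Finset.sum_congr rfl h2, Finset.sum_comm]
  rw [Finset.sum_congr rfl h1, Finset.sum_comm]
  refine Finset.sum_congr rfl fun b _ => ?_
  rw [Finset.sum_comm]
  refine Finset.sum_congr rfl fun e _ => ?_
  rw [Finset.sum_comm]
  refine Finset.sum_congr rfl fun a _ => ?_
  rw [Finset.sum_comm]

/-- the dyadic sum -/
theorem RKL_dy (S : Finset ℝ) (d D b : ℝ) (hd : 0 < d) (hd1 : d ≤ 1) (hD : 0 ≤ D)
    (hc : ∀ σ : ℝ, d ≤ σ → σ ≤ 1 → ((S.filter fun e => |e - b| ≤ σ).card : ℝ) ≤ D * Real.sqrt (σ / d))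
    (hs : ∀ e ∈ S, e ≠ b → d ≤ |b - e| ∧ |b - e| ≤ 1) :
    ∑ e ∈ S.erase b, 1 / Real.sqrt |b - e| ≤ 3 * (1 + Real.log (1 / d)) * D / Real.sqrt d := by
  classical
  have hds : 0 < Real.sqrt d := Real.sqrt_pos.2 hd
  set J : ℕ := ⌊Real.logb 2 (1 / d)⌋₊ with hJ
  have hmaps : ∀ e ∈ S.erase b, ⌊Real.logb 2 (1 / |b - e|)⌋₊ ∈ Finset.range (J + 1) := by
    intro e he
    obtain ⟨h1, h2⟩ := hs e (Finset.mem_of_mem_erase he) (Finset.ne_of_mem_erase he)
    rw [Finset.mem_range, Nat.lt_succ_iff, hJ]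
    refine Nat.floor_le_floor ?_
    have h3 : 0 < |b - e| := lt_of_lt_of_le hd h1
    exact Real.logb_le_logb_of_le (by norm_num) (by positivity) (one_div_le_one_div_of_le hd h1)
  rw [← Finset.sum_fiberwise_of_maps_to hmaps]
  have hj : ∀ j ∈ Finset.range (J + 1), ∑ e ∈ (S.erase b).filter (fun e => ⌊Real.logb 2 (1 / |b - e|)⌋₊ = j), 1 / Real.sqrt |b - e| ≤ D * Real.sqrt (2 / d) := by
    intro j hjr
    rw [Finset.mem_range, Nat.lt_succ_iff] at hjr
    have h2j : (0 : ℝ) < 2 ^ j := by positivity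
    have hdj : d ≤ 1 / 2 ^ j := by
      have h1 : (j : ℝ) ≤ Real.logb 2 (1 / d) := by
        have h2 : (j : ℝ) ≤ (J : ℝ) := by exact_mod_cast hjr
        refine h2.trans ?_
        rw [hJ]
        refine Nat.floor_le ?_
        exact Real.logb_nonneg (by norm_num) ((one_le_div hd).2 hd1)
      rw [Real.le_logb_iff_rpow_le (by norm_num) (by positivity), Real.rpow_natCast] at h1
      rw [le_div_iff₀ h2j]
      rw [le_div_iff₀ hd] at h1
      linarith
    have hterm : ∀ e ∈ (S.erase b).filter (fun e => ⌊Real.logb 2 (1 / |b - e|)⌋₊ = j), 1 / Real.sqrt |b - e| ≤ Real.sqrt (2 ^ (j + 1)) ∧ |e - b| ≤ 1 / 2 ^ j := by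
      intro e he
      rw [Finset.mem_filter] at he
      obtain ⟨h1, h2⟩ := hs e (Finset.mem_of_mem_erase he.1) (Finset.ne_of_mem_erase he.1)
      have h3 : 0 < |b - e| := lt_of_lt_of_le hd h1
      have h4 : 0 ≤ Real.logb 2 (1 / |b - e|) := Real.logb_nonneg (by norm_num) ((one_le_div h3).2 h2)
      have h5 : (j : ℝ) ≤ Real.logb 2 (1 / |b - e|) := by
        rw [← he.2]
        exact Nat.floor_le h4
      have h6 : Real.logb 2 (1 / |b - e|) < (j : ℝ) + 1 := by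
        rw [← he.2]
        exact Nat.lt_floor_add_one _
      rw [Real.le_logb_iff_rpow_le (by norm_num) (by positivity), Real.rpow_natCast] at h5
      rw [Real.logb_lt_iff_lt_rpow (by norm_num) (by positivity)] at h6
      have h7 : (2 : ℝ) ^ ((j : ℝ) + 1) = 2 ^ (j + 1) := by
        rw [← Real.rpow_natCast]
        push_cast
        rfl
      rw [h7] at h6
      constructor
      · rw [← Real.sqrt_one, ← Real.sqrt_div zero_le_one]
        exact Real.sqrt_le_sqrt h6.le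
      · rw [abs_sub_comm, le_div_iff₀ h2j]
        rw [le_div_iff₀ h3] at h5
        linarith
    calc ∑ e ∈ (S.erase b).filter (fun e => ⌊Real.logb 2 (1 / |b - e|)⌋₊ = j), 1 / Real.sqrt |b - e|
        ≤ ∑ e ∈ (S.erase b).filter (fun e => ⌊Real.logb 2 (1 / |b - e|)⌋₊ = j), Real.sqrt (2 ^ (j + 1)) :=
          Finset.sum_le_sum fun e he => (hterm e he).1
      _ = (((S.erase b).filter (fun e => ⌊Real.logb 2 (1 / |b - e|)⌋₊ = j)).card : ℝ) * Real.sqrt (2 ^ (j + 1)) := by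
          rw [Finset.sum_const, nsmul_eq_mul]
      _ ≤ (D * Real.sqrt (1 / 2 ^ j / d)) * Real.sqrt (2 ^ (j + 1)) := by
          refine mul_le_mul_of_nonneg_right ?_ (Real.sqrt_nonneg _)
          refine le_trans ?_ (hc (1 / 2 ^ j) hdj ?_)
          · have h8 : (S.erase b).filter (fun e => ⌊Real.logb 2 (1 / |b - e|)⌋₊ = j) ⊆ S.filter fun e => |e - b| ≤ 1 / 2 ^ j := by
              intro e he
              rw [Finset.mem_filter]
              exact ⟨Finset.mem_of_mem_erase (Finset.mem_filter.1 he).1, (hterm e he).2⟩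
            exact_mod_cast Finset.card_le_card h8
          · rw [div_le_one h2j]
            exact one_le_pow₀ (by norm_num)
      _ = D * Real.sqrt (2 / d) := by
          rw [mul_assoc, ← Real.sqrt_mul (by positivity)]
          congr 2
          rw [pow_succ]
          field_simp
  refine (Finset.sum_le_sum hj).trans ?_
  rw [Finset.sum_const, Finset.card_range, nsmul_eq_mul]
  have hL : 0 ≤ Real.log (1 / d) := Real.log_nonneg ((one_le_div hd).2 hd1)
  have hJ2 : ((J + 1 : ℕ) : ℝ) ≤ 2 * (1 + Real.log (1 / d)) := by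
    have h1 : (J : ℝ) ≤ Real.logb 2 (1 / d) := by
      rw [hJ]
      exact Nat.floor_le (Real.logb_nonneg (by norm_num) ((one_le_div hd).2 hd1))
    have h2 : Real.logb 2 (1 / d) ≤ 2 * Real.log (1 / d) := by
      unfold Real.logb
      rw [div_le_iff₀ (Real.log_pos (by norm_num))]
      have h3 : (0.6931471803 : ℝ) < Real.log 2 := Real.log_two_gt_d9
      nlinarith
    push_cast
    linarith
  have h2d : Real.sqrt (2 / d) ≤ 3 / 2 / Real.sqrt d := by
    rw [Real.sqrt_div (by norm_num)]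
    refine div_le_div_of_nonneg_right ?_ hds.le
    rw [Real.sqrt_le_left (by norm_num)]
    norm_num
  calc ((J + 1 : ℕ) : ℝ) * (D * Real.sqrt (2 / d)) ≤ (2 * (1 + Real.log (1 / d))) * (D * (3 / 2 / Real.sqrt d)) := by
        gcongr
    _ = 3 * (1 + Real.log (1 / d)) * D / Real.sqrt d := by ring

open Classical in
/-- the number of the `m` for given `a, b, c, e`, `b ≠ e` -/
theorem RKL_m (M : Finset ℝ) (d : ℝ) (hd : 0 < d) (hM : ∀ m ∈ M, |m| ≤ 32) (hMs : ∀ m ∈ M, ∀ m' ∈ M, m ≠ m' → d ≤ |m - m'|)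
    (a b c e : ℝ) (h1 : d ≤ |b - e|) (h2 : |b - e| ≤ 1) :
    ∑ m ∈ M, (if |a + m * b - (c + m * e)| < d then (1 : ℝ) else 0) ≤ (if |c - a| ≤ 33 * |b - e| then (1 : ℝ) else 0) * (3 / |b - e|) := by
  have hs : 0 < |b - e| := lt_of_lt_of_le hd h1
  have hbe : b - e ≠ 0 := abs_pos.1 hs
  by_cases h : |c - a| ≤ 33 * |b - e|
  · rw [if_pos h, one_mul, ← Finset.natCast_card_filter]
    have h3 := RKL_sep hd (M.filter fun m => |a + m * b - (c + m * e)| < d) (fun x hx y hy hne =>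
      hMs x (Finset.mem_filter.1 hx).1 y (Finset.mem_filter.1 hy).1 hne) ((c - a) / (b - e)) (d / |b - e|) (by positivity) (by
        intro x hx
        have h4 := (Finset.mem_filter.1 hx).2
        have h5 : x - (c - a) / (b - e) = (a + x * b - (c + x * e)) / (b - e) := by
          field_simp
          ring
        rw [h5, abs_div]
        exact div_lt_div_of_pos_right h4 hs)
    refine h3.trans ?_
    have h6 : 2 * (d / |b - e|) / d = 2 / |b - e| := by
      field_simp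
    have h7 : 1 ≤ 1 / |b - e| := (one_le_div hs).2 h2
    have h8 : 3 / |b - e| = 2 / |b - e| + 1 / |b - e| := by ring
    rw [h6, h8]
    linarith
  · rw [if_neg h, zero_mul]
    refine le_of_eq (Finset.sum_eq_zero fun m hm => ?_)
    rw [if_neg]
    intro h4
    have h5 : |c - a| ≤ |a + m * b - (c + m * e)| + |m| * |b - e| := by
      have h6 : c - a = m * (b - e) - (a + m * b - (c + m * e)) := by ring
      rw [h6, ← abs_mul]
      have h7 := abs_sub (m * (b - e)) (a + m * b - (c + m * e))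
      linarith
    have h8 : |m| * |b - e| ≤ 32 * |b - e| := mul_le_mul_of_nonneg_right (hM m hm) hs.le
    linarith

/-- the final algebra -/
theorem RKL_fin {n2 Mc T D d L : ℝ} (hn : 0 < n2) (hMc : 0 ≤ Mc) (hT : 0 < T) (hD : 1 ≤ D) (hd : 0 < d) (hL : 0 ≤ L)
    (h1 : Mc * n2 ^ 2 ≤ T * (Mc * n2 + 54 * n2 * D ^ 2 * (1 + L) / d)) (h2 : 1 ≤ 4 * D ^ 2 * d * n2) (h3 : 432 * D ^ 2 * T ≤ 1 / d) :
    Mc ≤ 432 * D ^ 4 * T * (1 + L) := by
  have hD0 : 0 < D := by linarith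
  have e1 : Mc * n2 ≤ T * (Mc + 54 * D ^ 2 * (1 + L) / d) := by
    have e2 : Mc * n2 ^ 2 = (Mc * n2) * n2 := by ring
    have e3 : T * (Mc * n2 + 54 * n2 * D ^ 2 * (1 + L) / d) = (T * (Mc + 54 * D ^ 2 * (1 + L) / d)) * n2 := by ring
    rw [e2, e3] at h1
    exact le_of_mul_le_mul_right h1 hn
  have hT2 : T ≤ n2 / 2 := by
    rw [le_div_iff₀ hd] at h3
    have h4 : 432 * D ^ 2 * T * d ≤ 4 * D ^ 2 * d * n2 := h3.trans h2
    have h5 : 0 < D ^ 2 * d := by positivity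
    have h6 : (D ^ 2 * d) * (432 * T) ≤ (D ^ 2 * d) * (4 * n2) := by
      have e1 : (D ^ 2 * d) * (432 * T) = 432 * D ^ 2 * T * d := by ring
      have e2 : (D ^ 2 * d) * (4 * n2) = 4 * D ^ 2 * d * n2 := by ring
      rw [e1, e2]
      exact h4
    have h7 := le_of_mul_le_mul_left h6 h5
    linarith
  have e4 : Mc * n2 ≤ 2 * (T * (54 * D ^ 2 * (1 + L) / d)) := by
    have h4 : T * Mc ≤ n2 / 2 * Mc := mul_le_mul_of_nonneg_right hT2 hMc
    have h5 : T * (Mc + 54 * D ^ 2 * (1 + L) / d) = T * Mc + T * (54 * D ^ 2 * (1 + L) / d) := by ring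
    rw [h5] at e1
    linarith
  have e5 : Mc ≤ Mc * (4 * D ^ 2 * d * n2) := by
    nlinarith
  calc Mc ≤ Mc * (4 * D ^ 2 * d * n2) := e5
    _ = 4 * D ^ 2 * d * (Mc * n2) := by ring
    _ ≤ 4 * D ^ 2 * d * (2 * (T * (54 * D ^ 2 * (1 + L) / d))) := mul_le_mul_of_nonneg_left e4 (by positivity)
    _ = 432 * D ^ 4 * T * (1 + L) := by
        field_simp
        ring

theorem RKL_proof (h : RCV_stmt) : RKL_stmt := by
  classical
  refine ⟨432, by norm_num, ?_⟩
  intro G M δ D d T hδ hδd hd1 hD hG hM hMs hT hMT hCT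
  have hd : 0 < d := lt_of_lt_of_le hδ hδd
  have hD0 : 0 < D := by linarith
  obtain ⟨S, hSG, hSs, hScard⟩ := h.sp d G hd
  obtain ⟨n, hn⟩ : ∃ n : ℝ, n = (S.card : ℝ) := ⟨_, rfl⟩
  have hds : 0 < Real.sqrt d := Real.sqrt_pos.2 hd
  have hdq : Real.sqrt d ^ 2 = d := Real.sq_sqrt hd.le
  have hL : 0 ≤ Real.log (1 / d) := Real.log_nonneg ((one_le_div hd).2 hd1)
  -- the size of `S`
  have hn1 : 1 / D * Real.sqrt (1 / d) ≤ 2 * n := by
    refine (hG.lo d hδd hd1).trans ?_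
    rw [hn]
    exact_mod_cast hScard
  have hn0 : 0 < n := by
    have h1 : 0 < 1 / D * Real.sqrt (1 / d) := by positivity
    linarith
  have hn2 : 1 ≤ 4 * D ^ 2 * d * (n ^ 2) := by
    have h1 : Real.sqrt (1 / d) = 1 / Real.sqrt d := by
      rw [Real.sqrt_div zero_le_one, Real.sqrt_one]
    rw [h1, div_mul_div_comm, one_mul, div_le_iff₀ (by positivity)] at hn1
    have h2 : 1 ≤ (2 * n * (D * Real.sqrt d)) ^ 2 := by
      have h3 : (1 : ℝ) ^ 2 ≤ (2 * n * (D * Real.sqrt d)) ^ 2 := pow_le_pow_left₀ zero_le_one hn1 2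
      rwa [one_pow] at h3
    have h4 : (2 * n * (D * Real.sqrt d)) ^ 2 = 4 * D ^ 2 * d * n ^ 2 := by
      have h5 : (2 * n * (D * Real.sqrt d)) ^ 2 = 4 * D ^ 2 * (Real.sqrt d ^ 2) * n ^ 2 := by ring
      rw [h5, hdq]
    rw [h4] at h2
    exact h2
  -- the number of points near a point
  have hcount : ∀ b ∈ S, ∀ σ : ℝ, d ≤ σ → σ ≤ 1 → ((S.filter fun e => |e - b| ≤ σ).card : ℝ) ≤ D * Real.sqrt (σ / d) := by
    intro b _ σ h1 h2
    refine le_trans ?_ (hG.up d σ b hδd h1 h2)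
    have h3 := h.cc d (S.filter fun e => |e - b| ≤ σ) hd (fun x hx y hy hne => hSs x (Finset.mem_filter.1 hx).1 y (Finset.mem_filter.1 hy).1 hne)
    have h4 := h.mo d (S.filter fun e => |e - b| ≤ σ) (lc G b σ) (by
      intro x hx
      rw [Finset.mem_filter] at hx
      exact Finset.mem_filter.2 ⟨hSG hx.1, hx.2⟩)
    exact_mod_cast h3.trans h4
  have hSI : ∀ x ∈ S, ∀ y ∈ S, |x - y| ≤ 1 := by
    intro x hx y hy
    have h1 := hG.i x (hSG hx)
    have h2 := hG.i y (hSG hy)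
    rw [abs_le]
    constructor
    · linarith [h1.1, h2.2]
    · linarith [h1.2, h2.1]
  have hcount2 : ∀ b ∈ S, ∀ s : ℝ, d ≤ s → ((S.filter fun e => |e - b| ≤ 33 * s).card : ℝ) ≤ 6 * D * (Real.sqrt s / Real.sqrt d) := by
    intro b hb s h1
    have hs : 0 < s := lt_of_lt_of_le hd h1
    have h2 := hcount b hb (min (33 * s) 1) (le_min (by linarith) hd1) (min_le_right _ _)
    have h3 : (S.filter fun e => |e - b| ≤ 33 * s) ⊆ S.filter fun e => |e - b| ≤ min (33 * s) 1 := by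
      intro x hx
      rw [Finset.mem_filter] at hx ⊢
      exact ⟨hx.1, le_min hx.2 (hSI x hx.1 b hb)⟩
    have h4 : ((S.filter fun e => |e - b| ≤ 33 * s).card : ℝ) ≤ ((S.filter fun e => |e - b| ≤ min (33 * s) 1).card : ℝ) := by
      exact_mod_cast Finset.card_le_card h3
    refine h4.trans (h2.trans ?_)
    have h5 : Real.sqrt (min (33 * s) 1 / d) ≤ 6 * (Real.sqrt s / Real.sqrt d) := by
      rw [← Real.sqrt_div hs.le]
      have h6 : (6 : ℝ) = Real.sqrt 36 := by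
        rw [show (36 : ℝ) = 6 ^ 2 by norm_num, Real.sqrt_sq (by norm_num)]
      rw [h6, ← Real.sqrt_mul (by norm_num)]
      refine Real.sqrt_le_sqrt ?_
      rw [← mul_div_assoc]
      refine div_le_div_of_nonneg_right ?_ hd.le
      exact (min_le_left _ _).trans (by linarith)
    calc D * Real.sqrt (min (33 * s) 1 / d) ≤ D * (6 * (Real.sqrt s / Real.sqrt d)) := mul_le_mul_of_nonneg_left h5 hD0.le
      _ = 6 * D * (Real.sqrt s / Real.sqrt d) := by ring
  -- Cauchy-Schwarz for every `m`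
  have hcs : ∀ m ∈ M, n ^ 4 ≤ T * ∑ a ∈ S, ∑ b ∈ S, ∑ c ∈ S, ∑ e ∈ S, (if |a + m * b - (c + m * e)| < d then (1 : ℝ) else 0) := by
    intro m hm
    have h1 : (((S ×ˢ S).image fun q : ℝ × ℝ => ⌊(q.1 + m * q.2) / d⌋).card : ℝ) ≤ T := by
      refine le_trans ?_ (hMT m hm)
      have h2 : ((S ×ˢ S).image fun q : ℝ × ℝ => ⌊(q.1 + m * q.2) / d⌋) ⊆ cel d (G + dil m G) := by
        intro k hk
        obtain ⟨q, hq, rfl⟩ := Finset.mem_image.1 hk
        rw [Finset.mem_product] at hq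
        refine Finset.mem_image.2 ⟨q.1 + m * q.2, ?_, rfl⟩
        exact Finset.add_mem_add (hSG hq.1) (Finset.mem_image.2 ⟨q.2, hSG hq.2, rfl⟩)
      exact_mod_cast Finset.card_le_card h2
    have h3 := RKL_cs (S ×ˢ S) (fun q : ℝ × ℝ => ⌊(q.1 + m * q.2) / d⌋) T h1
    have h4 : (((S ×ˢ S).card : ℕ) : ℝ) ^ 2 = n ^ 4 := by
      rw [Finset.card_product, hn]
      push_cast
      ring
    rw [h4] at h3
    refine h3.trans (mul_le_mul_of_nonneg_left ?_ hT.le)
    rw [Finset.sum_product]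
    refine Finset.sum_le_sum fun a _ => Finset.sum_le_sum fun b _ => ?_
    rw [Finset.sum_product]
    refine Finset.sum_le_sum fun c _ => Finset.sum_le_sum fun e _ => ?_
    by_cases h5 : ⌊(a + m * b) / d⌋ = ⌊(c + m * e) / d⌋
    · have h6 := Int.abs_sub_lt_one_of_floor_eq_floor h5
      rw [← sub_div, abs_div, abs_of_pos hd, div_lt_one hd] at h6
      rw [if_pos h5, if_pos h6]
    · rw [if_neg h5]
      split_ifs
      · exact zero_le_one
      · exact le_rfl
  have hsum : (M.card : ℝ) * n ^ 4 ≤ T * ∑ b ∈ S, ∑ e ∈ S, ∑ a ∈ S, ∑ c ∈ S, ∑ m ∈ M, (if |a + m * b - (c + m * e)| < d then (1 : ℝ) else 0) := by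
    have h1 := Finset.sum_le_sum hcs
    rw [Finset.sum_const, nsmul_eq_mul, ← Finset.mul_sum, RKL_comm M S (fun m a b c e => if |a + m * b - (c + m * e)| < d then (1 : ℝ) else 0)] at h1
    exact h1
  -- the diagonal
  have hdiag : ∀ b ∈ S, ∑ a ∈ S, ∑ c ∈ S, ∑ m ∈ M, (if |a + m * b - (c + m * b)| < d then (1 : ℝ) else 0) ≤ M.card * n := by
    intro b _
    have h1 : ∀ a ∈ S, ∑ c ∈ S, ∑ m ∈ M, (if |a + m * b - (c + m * b)| < d then (1 : ℝ) else 0) ≤ M.card := by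
      intro a ha
      have h2 : ∀ c ∈ S, ∑ m ∈ M, (if |a + m * b - (c + m * b)| < d then (1 : ℝ) else 0) = if a = c then (M.card : ℝ) else 0 := by
        intro c hc
        by_cases h3 : a = c
        · rw [if_pos h3]
          have h4 : ∀ m ∈ M, (if |a + m * b - (c + m * b)| < d then (1 : ℝ) else 0) = 1 := by
            intro m _
            rw [h3, sub_self, abs_zero, if_pos hd]
          rw [Finset.sum_congr rfl h4, Finset.sum_const, nsmul_eq_mul, mul_one]
        · rw [if_neg h3]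
          refine Finset.sum_eq_zero fun m _ => ?_
          rw [if_neg]
          have h4 : a + m * b - (c + m * b) = a - c := by ring
          rw [h4]
          exact not_lt.2 (hSs a ha c hc h3)
      rw [Finset.sum_congr rfl h2, Finset.sum_ite_eq, if_pos ha]
    refine (Finset.sum_le_sum h1).trans ?_
    rw [Finset.sum_const, nsmul_eq_mul, ← hn, mul_comm]
  -- off the diagonal
  have hoff : ∀ b ∈ S, ∀ e ∈ S, e ≠ b → ∑ a ∈ S, ∑ c ∈ S, ∑ m ∈ M, (if |a + m * b - (c + m * e)| < d then (1 : ℝ) else 0) ≤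
      18 * n * D / Real.sqrt d * (1 / Real.sqrt |b - e|) := by
    intro b hb e he hne
    have hs1 : d ≤ |b - e| := hSs b hb e he hne.symm
    have hs : 0 < |b - e| := lt_of_lt_of_le hd hs1
    have h1 : ∀ a ∈ S, ∑ c ∈ S, ∑ m ∈ M, (if |a + m * b - (c + m * e)| < d then (1 : ℝ) else 0) ≤ (6 * D * (Real.sqrt |b - e| / Real.sqrt d)) * (3 / |b - e|) := by
      intro a ha
      refine (Finset.sum_le_sum fun c _ => RKL_m M d hd hM hMs a b c e hs1 (hSI b hb e he)).trans ?_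
      rw [← Finset.sum_mul, ← Finset.natCast_card_filter]
      exact mul_le_mul_of_nonneg_right (hcount2 a ha |b - e| hs1) (by positivity)
    refine (Finset.sum_le_sum h1).trans ?_
    rw [Finset.sum_const, nsmul_eq_mul, ← hn]
    have hq : 0 < Real.sqrt |b - e| := Real.sqrt_pos.2 hs
    have hqq : Real.sqrt |b - e| ^ 2 = |b - e| := Real.sq_sqrt hs.le
    refine le_of_eq ?_
    have h2 : (3 : ℝ) / |b - e| = 3 / Real.sqrt |b - e| ^ 2 := by rw [hqq]
    rw [h2]
    field_simp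
    ring
  have hrow : ∀ b ∈ S, ∑ e ∈ S, ∑ a ∈ S, ∑ c ∈ S, ∑ m ∈ M, (if |a + m * b - (c + m * e)| < d then (1 : ℝ) else 0) ≤
      M.card * n + 18 * n * D / Real.sqrt d * (3 * (1 + Real.log (1 / d)) * D / Real.sqrt d) := by
    intro b hb
    rw [← Finset.add_sum_erase S _ hb]
    refine add_le_add (hdiag b hb) ?_
    have h1 : ∀ e ∈ S.erase b, ∑ a ∈ S, ∑ c ∈ S, ∑ m ∈ M, (if |a + m * b - (c + m * e)| < d then (1 : ℝ) else 0) ≤
        18 * n * D / Real.sqrt d * (1 / Real.sqrt |b - e|) := fun e he => hoff b hb e (Finset.mem_of_mem_erase he) (Finset.ne_of_mem_erase he)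
    refine (Finset.sum_le_sum h1).trans ?_
    rw [← Finset.mul_sum]
    refine mul_le_mul_of_nonneg_left ?_ (by positivity)
    exact RKL_dy S d D b hd hd1 hD0.le (hcount b hb) fun e he hne => ⟨hSs b hb e he hne.symm, hSI b hb e he⟩
  have htot : (M.card : ℝ) * n ^ 4 ≤ T * (n * (M.card * n + 18 * n * D / Real.sqrt d * (3 * (1 + Real.log (1 / d)) * D / Real.sqrt d))) := by
    refine hsum.trans (mul_le_mul_of_nonneg_left ?_ hT.le)
    refine (Finset.sum_le_sum hrow).trans ?_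
    rw [Finset.sum_const, nsmul_eq_mul, ← hn]
  refine RKL_fin (n2 := n ^ 2) (by positivity) (Nat.cast_nonneg _) hT hD hd hL ?_ hn2 hCT
  have e1 : (n ^ 2) ^ 2 = n ^ 4 := by ring
  have e2 : n * (M.card * n + 18 * n * D / Real.sqrt d * (3 * (1 + Real.log (1 / d)) * D / Real.sqrt d)) = M.card * n ^ 2 + 54 * n ^ 2 * D ^ 2 * (1 + Real.log (1 / d)) / d := by
    have h1 : 18 * n * D / Real.sqrt d * (3 * (1 + Real.log (1 / d)) * D / Real.sqrt d) = 54 * n * D ^ 2 * (1 + Real.log (1 / d)) / Real.sqrt d ^ 2 := by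
      field_simp
      ring
    rw [h1, hdq]
    ring
  rw [e2] at htot
  rw [e1]
  exact htot

end Pool.Agent.HH
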